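import Mathlib

open MeasureTheory Set Complex Filter Topology Function
open scoped NNReal

namespace Pool.Agent.H.MP_c78a2a_an

noncomputable def jac (A : ℂ →L[ℝ] ℂ) : ℝ := (A 1).re * (A I).im - (A I).re * (A 1).im

lemma det_eq (A : ℂ →L[ℝ] ℂ) : A.det = jac A := by
  rw [ContinuousLinearMap.det, ← LinearMap.det_toMatrix Complex.basisOneI, Matrix.det_fin_two]
  simp [LinearMap.toMatrix_apply, jac]

def DistAt (F : ℂ → ℂ) (z : ℂ) : Prop :=
  ∃ A : ℂ →L[ℝ] ℂ, HasFDerivAt F A z ∧ ‖A‖ ^ 2 ≤ 10 * jac A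

structure Good (F : ℂ → ℂ) (L : ℝ≥0) : Prop where
  bij : Bijective F
  lip : LipschitzWith L F
  dis : ∀ᵐ z, DistAt F z

def n1 (z : ℂ) : ℝ := |z.re| + |z.im|

def V (c : ℂ) (r : ℝ) : Set ℂ := {z | n1 (z - c) < r}

def Supp (F : ℂ → ℂ) (c : ℂ) (r : ℝ) : Prop := ∀ z ∉ V c r, F z = z

lemma norm_le_n1 (z : ℂ) : ‖z‖ ≤ n1 z := norm_le_abs_re_add_abs_im z

lemma cont_n1 : Continuous n1 := by unfold n1; fun_prop

lemma isOpen_V (c : ℂ) (r : ℝ) : IsOpen (V c r) :=
  isOpen_lt (cont_n1.comp (by fun_prop)) continuous_const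

lemma convex_V (c : ℂ) (r : ℝ) : Convex ℝ (V c r) := by
  intro z hz w hw a b ha hb hab
  simp only [V, n1, mem_ofPred_eq] at *
  have e : a • z + b • w - c = a • (z - c) + b • (w - c) := by
    have : c = (a + b) • c := by rw [hab, one_smul]
    conv_lhs => rw [this]
    simp only [smul_sub, add_smul]; ring
  rw [e]
  simp only [add_re, add_im, smul_re, smul_im, smul_eq_mul]
  have h1 := abs_add_le (a * (z - c).re) (b * (w - c).re)
  have h2 := abs_add_le (a * (z - c).im) (b * (w - c).im)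
  rw [abs_mul, abs_mul, abs_of_nonneg ha, abs_of_nonneg hb] at h1 h2
  rcases ha.eq_or_lt with rfl | ha'
  · have : b = 1 := by linarith
    subst this; simpa using hw
  · have : r = a * r + b * r := by rw [← add_mul, hab, one_mul]
    linarith [mul_le_mul_of_nonneg_left hw.le hb, mul_lt_mul_of_pos_left hz ha']

lemma Supp.maps {F : ℂ → ℂ} {c : ℂ} {r : ℝ} (h : Supp F c r) (hi : Injective F) {z : ℂ}
    (hz : z ∈ V c r) : F z ∈ V c r := by
  by_contra h'
  have := hi (h _ h')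
  exact h' (by rwa [this])

lemma DistAt.aff {F : ℂ → ℂ} {z : ℂ} (h : DistAt F z) (a b : ℂ) :
    DistAt (fun w => a * F w + b) z := by
  obtain ⟨A, h1, h2⟩ := h
  refine ⟨a • A, (h1.const_mul a).add_const b, ?_⟩
  have : jac (a • A) = ‖a‖ ^ 2 * jac A := by
    rw [Complex.sq_norm, normSq_apply]
    simp [jac]; ring
  rw [this, norm_smul, mul_pow]
  nlinarith [sq_nonneg ‖a‖]

lemma DistAt.congr {F G : ℂ → ℂ} {z : ℂ} (h : DistAt F z) (e : G =ᶠ[𝓝 z] F) : DistAt G z := by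
  obtain ⟨A, h1, h2⟩ := h
  exact ⟨A, h1.congr_of_eventuallyEq e, h2⟩

/-- conjugation by a homothety -/
noncomputable def cj (F : ℂ → ℂ) (c : ℂ) (ρ : ℝ) (z : ℂ) : ℂ := ρ * F (ρ⁻¹ • (z - c)) + c

lemma n1_smul (ρ : ℝ) (z : ℂ) : n1 (ρ • z) = |ρ| * n1 z := by
  simp [n1, abs_mul]; ring

lemma cj_apply (F : ℂ → ℂ) (c : ℂ) {ρ : ℝ} (hρ : 0 < ρ) (p : ℂ) :
    cj F c ρ (ρ * p + c) = ρ * F p + c := by
  have : (ρ : ℂ) ≠ 0 := by exact_mod_cast hρ.ne'
  simp only [cj]; congr 3; simp; field_simp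

lemma mem_V_cj (c : ℂ) {ρ r : ℝ} (hρ : 0 < ρ) {p : ℂ} (hp : p ∈ V 0 r) :
    ρ * p + c ∈ V c (ρ * r) := by
  simp only [V, mem_ofPred_eq, add_sub_cancel_right, sub_zero] at *
  rw [← real_smul, n1_smul, abs_of_pos hρ]
  exact mul_lt_mul_of_pos_left hp hρ

lemma Good.cj {F : ℂ → ℂ} {L : ℝ≥0} (h : Good F L) (c : ℂ) {ρ : ℝ} (hρ : 0 < ρ) :
    Good (cj F c ρ) L := by
  have h0 : (ρ : ℂ) ≠ 0 := by exact_mod_cast hρ.ne'
  refine ⟨⟨fun z w e => ?_, fun y => ?_⟩, LipschitzWith.of_dist_le_mul fun z w => ?_, ?_⟩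
  · simp only [H.MP_c78a2a_an.cj, add_left_inj, mul_eq_mul_left_iff, h0, or_false] at e
    have := smul_right_injective ℂ (inv_ne_zero hρ.ne') (h.bij.1 e)
    simpa using this
  · obtain ⟨p, hp⟩ := h.bij.2 ((y - c) / ρ)
    exact ⟨ρ * p + c, by rw [cj_apply F c hρ, hp]; field_simp; ring⟩
  · have := h.lip.dist_le_mul (ρ⁻¹ • (z - c)) (ρ⁻¹ • (w - c))
    rw [dist_smul₀, dist_sub_right, Real.norm_eq_abs, abs_of_pos (inv_pos.2 hρ)] at this
    simp only [H.MP_c78a2a_an.cj, dist_add_right]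
    rw [← real_smul, ← real_smul, dist_smul₀, Real.norm_eq_abs, abs_of_pos hρ]
    calc _ ≤ ρ * (L * (ρ⁻¹ * dist z w)) := by gcongr
      _ = _ := by field_simp
  · have q : Measure.QuasiMeasurePreserving (fun z : ℂ => ρ⁻¹ • (z - c)) volume volume :=
      (Measure.quasiMeasurePreserving_smul volume (inv_ne_zero hρ.ne')).comp
        (measurePreserving_sub_right volume c).quasiMeasurePreserving
    filter_upwards [q.ae h.dis] with z ⟨A, h1, h2⟩
    refine ⟨A, ?_, h2⟩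
    have h3 : HasFDerivAt (fun z : ℂ => ρ⁻¹ • (z - c)) (ρ⁻¹ • ContinuousLinearMap.id ℝ ℂ) z :=
      ((hasFDerivAt_id z).sub_const c).const_smul ρ⁻¹
    refine (((h1.comp z h3).const_mul (ρ : ℂ)).add_const c).congr_fderiv ?_
    ext1 v
    simp; field_simp

lemma Supp.cj {F : ℂ → ℂ} {r : ℝ} (h : Supp F 0 r) (c : ℂ) {ρ : ℝ} (hρ : 0 < ρ) :
    Supp (cj F c ρ) c (ρ * r) := by
  intro z hz
  have h0 : (ρ : ℂ) ≠ 0 := by exact_mod_cast hρ.ne'
  have e : z = ρ * ((z - c) / ρ) + c := by field_simp; ring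
  rw [e, cj_apply F c hρ, h _ fun h' => hz (e ▸ mem_V_cj c hρ h')]

lemma glue {ι : Type} [Countable ι] (c : ι → ℂ) (r : ι → ℝ) (a b : ι → ℂ) (Φ : ι → ℂ → ℂ)
    (Λ : ι → ℝ≥0) (G : ℂ → ℂ) (L : ℝ≥0) (hG : Good G L) (hΦ : ∀ i, Good (Φ i) (Λ i))
    (hS : ∀ i, Supp (Φ i) (c i) (r i)) (hd : Pairwise fun i j => Disjoint (V (c i) (r i)) (V (c j) (r j)))
    (hf : LocallyFinite fun i => V (c i) (r i))
    (hab : ∀ i z, n1 (z - c i) ≤ r i → G z = a i * z + b i) (hL : ∀ i, ‖a i‖ * Λ i ≤ L) :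
    ∃ H : ℂ → ℂ, Good H L ∧ (∀ i, ∀ z ∈ V (c i) (r i), H z = G (Φ i z)) ∧
      ∀ z, (∀ i, z ∉ V (c i) (r i)) → H z = G z := by
  classical
  let Ψ : ℂ → ℂ := fun z => if h : ∃ i, z ∈ V (c i) (r i) then Φ h.choose z else z
  have Ψ1 : ∀ i, ∀ z ∈ V (c i) (r i), Ψ z = Φ i z := fun i z hz => by
    have h : ∃ i, z ∈ V (c i) (r i) := ⟨i, hz⟩
    have : h.choose = i := by
      by_contra h'
      exact disjoint_left.1 (hd h') h.choose_spec hz
    simp only [Ψ, dif_pos h, this]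
  have Ψ2 : ∀ z, (∀ i, z ∉ V (c i) (r i)) → Ψ z = z := fun z hz => by
    simp only [Ψ]; rw [dif_neg (by simpa using hz)]
  have mp : ∀ i, ∀ z ∈ V (c i) (r i), Φ i z ∈ V (c i) (r i) := fun i z hz =>
    (hS i).maps (hΦ i).bij.1 hz
  have H1 : ∀ i, ∀ z ∈ V (c i) (r i), G (Ψ z) = a i * Φ i z + b i := fun i z hz => by
    rw [Ψ1 i z hz, hab i _ (mp i z hz).le]
  have bΨ : Bijective Ψ := by
    refine ⟨fun z w e => ?_, fun y => ?_⟩
    · have key : ∀ z w, Ψ z = Ψ w → ∀ i, z ∈ V (c i) (r i) → w ∈ V (c i) (r i) := by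
        intro z w e i hz
        have h1 : Ψ w ∈ V (c i) (r i) := by rw [← e, Ψ1 i z hz]; exact mp i z hz
        by_cases h : ∃ j, w ∈ V (c j) (r j)
        · obtain ⟨j, hj⟩ := h
          by_cases hij : i = j
          · exact hij ▸ hj
          · rw [Ψ1 j w hj] at h1
            exact (disjoint_left.1 (hd hij) h1 (mp j w hj)).elim
        · rwa [Ψ2 w (by simpa using h)] at h1
      by_cases h : ∃ i, z ∈ V (c i) (r i)
      · obtain ⟨i, hi⟩ := h
        have := key z w e i hi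
        rw [Ψ1 i z hi, Ψ1 i w this] at e
        exact (hΦ i).bij.1 e
      · have := Ψ2 w fun i hi => h ⟨i, key w z e.symm i hi⟩
        rwa [Ψ2 z (by simpa using h), this] at e
    · by_cases h : ∃ i, y ∈ V (c i) (r i)
      · obtain ⟨i, hi⟩ := h
        obtain ⟨z, hz⟩ := (hΦ i).bij.2 y
        have : z ∈ V (c i) (r i) := by
          by_contra h'
          rw [hS i z h'] at hz
          exact h' (hz ▸ hi)
        exact ⟨z, by rw [Ψ1 i z this, hz]⟩
      · exact ⟨y, Ψ2 y (by simpa using h)⟩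
  have loc : ∀ i z w, dist (a i * Φ i z + b i) (a i * Φ i w + b i) ≤ L * dist z w := by
    intro i z w
    rw [dist_add_right, dist_eq_norm, ← mul_sub, norm_mul, ← dist_eq_norm]
    calc _ ≤ ‖a i‖ * (Λ i * dist z w) := by gcongr; exact (hΦ i).lip.dist_le_mul _ _
      _ ≤ _ := by rw [← mul_assoc]; gcongr; exact hL i
  have cut : ∀ i, ∀ z ∈ V (c i) (r i), ∀ w ∉ V (c i) (r i), ∃ p, (∀ j, p ∉ V (c j) (r j)) ∧
      dist z p + dist p w = dist z w ∧ dist (G (Ψ z)) (G p) ≤ L * dist z p := by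
    intro i z hz w hw
    have hc : Continuous fun t : ℝ => n1 (AffineMap.lineMap z w t - c i) :=
      cont_n1.comp (by fun_prop)
    let S := {t : ℝ | t ∈ Icc (0 : ℝ) 1 ∧ r i ≤ n1 (AffineMap.lineMap z w t - c i)}
    obtain ⟨t, ht, e⟩ := intermediate_value_Icc zero_le_one hc.continuousOn
      (show r i ∈ _ from ⟨by simpa using hz.le, by simpa [V] using hw⟩)
    simp only at e
    set p : ℂ := AffineMap.lineMap z w t
    have hp : p ∉ V (c i) (r i) := by simp [V, e]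
    refine ⟨p, fun j hj => ?_, dist_add_dist_of_mem_segment
      (by rw [segment_eq_image_lineMap]; exact ⟨t, ht, rfl⟩), ?_⟩
    · by_cases hij : i = j
      · exact hp (hij ▸ hj)
      have hr : 0 < r i := lt_of_le_of_lt (by unfold n1; positivity) hz
      have hk : Continuous fun s : ℝ => s • (p - c i) + c i := by fun_prop
      have h1 : ∀ᶠ s in 𝓝[<] (1 : ℝ), s • (p - c i) + c i ∈ V (c j) (r j) :=
        nhdsWithin_le_nhds (hk.continuousAt.eventually ((isOpen_V _ _).mem_nhds (by simpa using hj)))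
      obtain ⟨s, h2, h3⟩ := (h1.and (Ioo_mem_nhdsLT zero_lt_one)).exists
      refine disjoint_left.1 (hd hij) ?_ h2
      simp only [V, mem_ofPred_eq, add_sub_cancel_right, n1_smul, e, abs_of_pos h3.1]
      nlinarith [h3.2]
    · rw [H1 i z hz, hab i p e.le]
      conv_lhs => rw [← hS i p hp]
      exact loc i z p
  have out : ∀ z w, (∀ j, w ∉ V (c j) (r j)) → dist (G (Ψ z)) (G w) ≤ L * dist z w := by
    intro z w hw
    by_cases h : ∃ i, z ∈ V (c i) (r i)
    · obtain ⟨i, hi⟩ := h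
      obtain ⟨p, -, h2, h3⟩ := cut i z hi w (hw i)
      have := hG.lip.dist_le_mul p w
      have := dist_triangle (G (Ψ z)) (G p) (G w)
      rw [← h2]; linarith
    · rw [Ψ2 z (by simpa using h)]; exact hG.lip.dist_le_mul _ _
  refine ⟨G ∘ Ψ, ⟨hG.bij.comp bΨ, LipschitzWith.of_dist_le_mul fun z w => ?_, ?_⟩,
    fun i z hz => by simp [Ψ1 i z hz], fun z hz => by simp [Ψ2 z hz]⟩
  · simp only [comp]
    by_cases h : ∃ i, z ∈ V (c i) (r i)
    · obtain ⟨i, hi⟩ := h
      by_cases hw : w ∈ V (c i) (r i)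
      · rw [H1 i z hi, H1 i w hw]; exact loc i z w
      obtain ⟨p, h1, h2, h3⟩ := cut i z hi w hw
      have := out w p h1
      have := dist_triangle_right (G (Ψ z)) (G (Ψ w)) (G p)
      rw [← h2, dist_comm p w]; linarith
    · rw [Ψ2 z (by simpa using h), dist_comm, dist_comm z]; exact out w z (by simpa using h)
  · have h1 : ∀ᵐ z : ℂ, ∀ i, z ∉ frontier (V (c i) (r i)) := ae_all_iff.2 fun i =>
      measure_eq_zero_iff_ae_notMem.1 ((convex_V _ _).addHaar_frontier volume)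
    filter_upwards [h1, hG.dis, ae_all_iff.2 fun i => (hΦ i).dis] with z h1 h2 h3
    by_cases h : ∃ i, z ∈ V (c i) (r i)
    · obtain ⟨i, hi⟩ := h
      refine ((h3 i).aff (a i) (b i)).congr ?_
      filter_upwards [(isOpen_V _ _).mem_nhds hi] with w hw using H1 i w hw
    · refine h2.congr ?_
      have : z ∉ closure (⋃ i, V (c i) (r i)) := by
        rw [hf.closure_iUnion]
        simp only [mem_iUnion, not_exists]
        intro i hi
        exact h1 i ⟨hi, fun h' => h ⟨i, interior_subset h'⟩⟩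
      filter_upwards [isClosed_closure.isOpen_compl.mem_nhds this] with w hw
      simp only [comp]
      rw [Ψ2 w fun i hi => hw (subset_closure (mem_iUnion.2 ⟨i, hi⟩))]

lemma good_pert (h : ℂ → ℂ) (hh : LipschitzWith (2 / 5) h) :
    Good (fun z => z + h z) 2 ∧ ∀ z w, 3 / 5 * ‖z - w‖ ≤ ‖z + h z - (w + h w)‖ := by
  have hd : ∀ z w, ‖h z - h w‖ ≤ 2 / 5 * ‖z - w‖ := fun z w => by
    simpa [dist_eq_norm] using hh.dist_le_mul z w
  have co : ∀ z w, 3 / 5 * ‖z - w‖ ≤ ‖z + h z - (w + h w)‖ := fun z w => by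
    have := norm_sub_le (z + h z - (w + h w)) (h z - h w)
    rw [show z + h z - (w + h w) - (h z - h w) = z - w by ring] at this
    linarith [hd z w]
  refine ⟨⟨⟨fun z w e => ?_, fun y => ?_⟩, LipschitzWith.of_dist_le_mul fun z w => ?_, ?_⟩, co⟩
  · have := co z w
    simp only at e
    rw [e, sub_self, norm_zero] at this
    exact sub_eq_zero.1 (norm_le_zero_iff.1 (by linarith))
  · have : ContractingWith (2 / 5) fun z => y - h z :=
      ⟨by norm_num, LipschitzWith.of_dist_le_mul fun z w => by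
        rw [dist_sub_left]; exact hh.dist_le_mul z w⟩
    refine ⟨this.fixedPoint _, ?_⟩
    have e := this.fixedPoint_isFixedPt
    simp only [IsFixedPt] at e ⊢
    exact (eq_sub_iff_add_eq.1 e.symm)
  · have := norm_add_le (z - w) (h z - h w)
    simp only [dist_eq_norm]
    rw [show z + h z - (w + h w) = z - w + (h z - h w) by ring]
    have := hd z w
    have := norm_nonneg (z - w)
    push_cast; linarith
  · filter_upwards [hh.ae_differentiableAt (μ := volume)] with z hz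
    refine ⟨_, (hasFDerivAt_id z).add hz.hasFDerivAt, ?_⟩
    have hn : ‖fderiv ℝ h z‖ ≤ 2 / 5 := by simpa using norm_fderiv_le_of_lipschitz ℝ hh
    set A := fderiv ℝ h z
    have h1 : ‖A 1‖ ≤ 2 / 5 := by simpa using (A.le_opNorm 1).trans (by simpa using hn)
    have h2 : ‖A I‖ ≤ 2 / 5 := by simpa using (A.le_opNorm I).trans (by simpa using hn)
    have h3 : ‖ContinuousLinearMap.id ℝ ℂ + A‖ ≤ 7 / 5 := by
      have := norm_add_le (ContinuousLinearMap.id ℝ ℂ) A
      have := ContinuousLinearMap.norm_id_le (𝕜 := ℝ) (E := ℂ)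
      linarith
    have a1 := abs_le.1 ((abs_re_le_norm _).trans h1)
    have a2 := abs_le.1 ((abs_im_le_norm _).trans h1)
    have a3 := abs_le.1 ((abs_re_le_norm _).trans h2)
    have a4 := abs_le.1 ((abs_im_le_norm _).trans h2)
    have h4 : 1 / 5 ≤ jac (ContinuousLinearMap.id ℝ ℂ + A) := by
      simp only [jac, ContinuousLinearMap.add_apply, ContinuousLinearMap.id_apply, add_re, add_im,
        one_re, one_im, I_re, I_im]
      nlinarith [mul_nonneg (sub_nonneg.2 a1.1) (sub_nonneg.2 a4.1),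
        mul_nonneg (sub_nonneg.2 a2.1) (sub_nonneg.2 a3.2),
        mul_nonneg (sub_nonneg.2 a2.2) (sub_nonneg.2 a3.1)]
    nlinarith [norm_nonneg (ContinuousLinearMap.id ℝ ℂ + A)]

lemma lip_re : LipschitzWith 1 re := LipschitzWith.of_dist_le_mul fun z w => by
  simpa [Real.dist_eq, dist_eq_norm] using abs_re_le_norm (z - w)

lemma lip_im : LipschitzWith 1 im := LipschitzWith.of_dist_le_mul fun z w => by
  simpa [Real.dist_eq, dist_eq_norm] using abs_im_le_norm (z - w)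

lemma lip_n1 : LipschitzWith 2 n1 := LipschitzWith.of_dist_le_mul fun z w => by
  have h1 := abs_re_le_norm (z - w)
  have h2 := abs_im_le_norm (z - w)
  have h3 := abs_abs_sub_abs_le_abs_sub z.re w.re
  have h4 := abs_abs_sub_abs_le_abs_sub z.im w.im
  have := abs_add_le (|z.re| - |w.re|) (|z.im| - |w.im|)
  simp only [sub_re, sub_im] at h1 h2
  rw [Real.dist_eq, dist_eq_norm, n1, n1,
    show |z.re| + |z.im| - (|w.re| + |w.im|) = |z.re| - |w.re| + (|z.im| - |w.im|) by ring]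
  push_cast; linarith

lemma base (u v : ℂ → ℝ) (hu : LipschitzWith 2 u) (hv : LipschitzWith 2 v) :
    ∃ G : ℂ → ℂ, Good G 2 ∧ Supp G 0 1000 ∧ (∀ z w, 3 / 5 * ‖z - w‖ ≤ ‖G z - G w‖) ∧
      ∀ z, |u z| ≤ 1000 - n1 z → |v z| ≤ 1000 - n1 z → G z = z + (u z + v z * I) / 10 := by
  let q : ℂ → ℝ := fun z => max 0 (1000 - n1 z)
  have hq : LipschitzWith 2 q := by
    refine LipschitzWith.const_max (LipschitzWith.of_dist_le_mul fun z w => ?_) 0
    rw [dist_sub_left]; exact lip_n1.dist_le_mul z w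
  let cl : (ℂ → ℝ) → ℂ → ℝ := fun u z => max (-q z) (min (u z) (q z))
  have hc : ∀ u, LipschitzWith 2 u → LipschitzWith 2 (cl u) := fun u hu => by
    simpa using hq.neg.max (hu.min hq)
  have e1 : ∀ u z, z ∉ V 0 1000 → cl u z = 0 := fun u z hz => by
    have : q z = 0 := max_eq_left (by simpa [V] using hz)
    simp [cl, this]
  have e2 : ∀ (u : ℂ → ℝ) z, |u z| ≤ 1000 - n1 z → cl u z = u z := fun u z hz => by
    have : |u z| ≤ q z := hz.trans (le_max_right _ _)
    simp only [cl]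
    rw [min_eq_left (abs_le.1 this).2, max_eq_right (abs_le.1 this).1]
  obtain ⟨h1, h2⟩ := good_pert (fun z => (cl u z + cl v z * I) / 10)
    (LipschitzWith.of_dist_le_mul fun z w => by
      have h1 := (hc u hu).dist_le_mul z w
      have h2 := (hc v hv).dist_le_mul z w
      rw [Real.dist_eq] at h1 h2
      rw [dist_eq_norm, ← sub_div, norm_div]
      have := norm_le_n1 (cl u z + cl v z * I - (cl u w + cl v w * I))
      simp only [n1, sub_re, add_re, ofReal_re, mul_re, I_re, ofReal_im, I_im, sub_im, add_im,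
        mul_im, mul_zero, mul_one, sub_zero, add_zero, zero_add] at this
      simp only [norm_ofNat]
      push_cast at *
      linarith)
  refine ⟨_, h1, fun z hz => by simp [e1 _ z hz], h2, fun z a b => by simp only [e2 _ z a, e2 _ z b]⟩

/-- triangle wave -/
noncomputable def T (t : ℝ) : ℝ := |t - 2 * round (t / 2)|

lemma T_le (t : ℝ) (k : ℤ) : T t ≤ |t - 2 * k| := by
  have := round_le (t / 2) k
  rw [T, show t - 2 * round (t / 2) = 2 * (t / 2 - round (t / 2)) by ring,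
    show t - 2 * k = 2 * (t / 2 - k) by ring, abs_mul, abs_mul]
  gcongr

lemma lip_T : LipschitzWith 1 T := LipschitzWith.of_le_add fun s t => by
  have := T_le s (round (t / 2))
  have := abs_sub_le s t (2 * round (t / 2))
  rw [Real.dist_eq, T.eq_1 t]; linarith

lemma T_even {t : ℝ} (k : ℤ) (h : |t - 2 * k| ≤ 1) : T t = |t - 2 * k| := by
  refine le_antisymm (T_le t k) ?_
  by_cases e : round (t / 2) = k
  · rw [T, e]
  have : (1 : ℝ) ≤ |(round (t / 2) : ℝ) - k| := by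
    have := Int.one_le_abs (sub_ne_zero.2 e)
    exact_mod_cast this
  have h2 := abs_sub_le (2 * round (t / 2) : ℝ) t (2 * k)
  rw [← mul_sub, abs_mul, abs_two, abs_sub_comm _ t] at h2
  rw [T]; linarith

lemma T_odd {t : ℝ} (k : ℤ) (h : |t - (2 * k + 1)| ≤ 1) : T t = 1 - |t - (2 * k + 1)| := by
  obtain ⟨h1, h2⟩ := abs_le.1 h
  rcases le_total t (2 * k + 1) with h3 | h3
  · rw [T_even k (abs_le.2 ⟨by linarith, by linarith⟩), abs_of_nonneg (by linarith),
      abs_of_nonpos (by linarith)]; ring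
  · rw [T_even (k + 1) (abs_le.2 ⟨by push_cast; linarith, by push_cast; linarith⟩),
      abs_of_nonpos (by push_cast; linarith), abs_of_nonneg (by linarith)]; push_cast; ring

noncomputable def R (z : ℂ) : ℝ :=
  (|z.im - (1 / 2 - T (z.re - 1 / 2))| - |z.im + (1 / 2 - T (z.re - 1 / 2))|) / 2

lemma lip_R : LipschitzWith 2 R := LipschitzWith.of_dist_le_mul fun z w => by
  have h1 := abs_re_le_norm (z - w)
  have h2 := abs_le.1 (abs_im_le_norm (z - w))
  have h3 := lip_T.dist_le_mul (z.re - 1 / 2) (w.re - 1 / 2)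
  rw [dist_sub_right, Real.dist_eq, Real.dist_eq] at h3
  simp only [sub_re, sub_im, NNReal.coe_one, one_mul] at h1 h2 h3
  have h4 := abs_le.1 (h3.trans h1)
  rw [Real.dist_eq, dist_eq_norm, R, R]
  set a := T (z.re - 1 / 2)
  set b := T (w.re - 1 / 2)
  have e1 := (abs_abs_sub_abs_le_abs_sub (z.im - (1 / 2 - a)) (w.im - (1 / 2 - b))).trans
    (abs_le.2 ⟨by linarith, by linarith⟩ : _ ≤ 2 * ‖z - w‖)
  have e2 := (abs_abs_sub_abs_le_abs_sub (z.im + (1 / 2 - a)) (w.im + (1 / 2 - b))).trans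
    (abs_le.2 ⟨by linarith, by linarith⟩ : _ ≤ 2 * ‖z - w‖)
  rw [abs_le] at *
  push_cast
  constructor <;> linarith

lemma piece (j : ℤ) : ∃ σ β : ℝ, |σ| = 1 ∧ ∀ z : ℂ, n1 (z - (j + 1 / 2)) ≤ 1 / 2 →
    T z.re = σ * z.re + β ∧ R z = -σ * z.im ∧ |T z.re| ≤ 1 := by
  have e : ∀ z : ℂ, n1 (z - (j + 1 / 2)) = |z.re - (j + 1 / 2)| + |z.im| := fun z => by
    simp [n1]
  obtain ⟨k, rfl | rfl⟩ := j.even_or_odd'
  · refine ⟨1, -2 * k, by simp, fun z hz => ?_⟩
    rw [e] at hz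
    push_cast at hz
    have h1 := abs_le.1 (show |z.re - (2 * k + 1 / 2)| ≤ 1 / 2 by linarith [abs_nonneg z.im])
    have h2 : T z.re = z.re - 2 * k := by
      rw [T_even k (abs_le.2 ⟨by linarith, by linarith⟩), abs_of_nonneg (by linarith)]
    refine ⟨by rw [h2]; ring, ?_, by rw [h2]; exact abs_le.2 ⟨by linarith, by linarith⟩⟩
    rw [R, T_even k (abs_le.2 ⟨by linarith, by linarith⟩), sub_sub, add_comm (1 / 2 : ℝ) (2 * k),
      abs_of_nonpos (by linarith [le_abs_self z.im]), abs_of_nonneg (a := z.im + _)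
        (by linarith [neg_abs_le z.im])]
    ring
  · refine ⟨-1, 2 * k + 2, by simp, fun z hz => ?_⟩
    rw [e] at hz
    push_cast at hz
    have h1 := abs_le.1 (show |z.re - (2 * k + 1 + 1 / 2)| ≤ 1 / 2 by linarith [abs_nonneg z.im])
    have h2 : T z.re = 2 * k + 2 - z.re := by
      rw [T_odd k (abs_le.2 ⟨by linarith, by linarith⟩), abs_of_nonneg (by linarith)]; ring
    refine ⟨by rw [h2]; ring, ?_, by rw [h2]; exact abs_le.2 ⟨by linarith, by linarith⟩⟩
    rw [R, T_odd k (abs_le.2 ⟨by linarith, by linarith⟩), sub_sub z.re,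
      show (1 / 2 : ℝ) + (2 * k + 1) = 2 * k + 1 + 1 / 2 by ring,
      abs_of_nonneg (a := z.im - _) (by linarith [neg_abs_le z.im]), abs_of_nonpos (a := z.im + _)
        (by linarith [le_abs_self z.im])]
    ring

lemma Good.mono {F : ℂ → ℂ} {L L' : ℝ≥0} (h : Good F L) (e : L ≤ L') : Good F L' :=
  ⟨h.bij, h.lip.weaken e, h.dis⟩

noncomputable def η : ℝ := 499 / 1000000 * (10049 / 10000)

def Sep (F : ℂ → ℂ) (m : ℕ) (τ : ℝ) : Prop :=
  ∃ (ι : Type) (_ : Fintype ι) (p : ι → ℂ), Fintype.card ι = 1998 ^ m ∧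
    (∀ a, (p a).im = 0 ∧ p a ∈ V 0 1000 ∧ ‖F (p a)‖ ≤ τ * 1000) ∧
    ∀ a b, a ≠ b → τ * (η ^ m / 1000) ≤ ‖F (p a) - F (p b)‖

lemma good_id : Good id 2 := by
  have := (good_pert (fun _ => 0) ((LipschitzWith.const' 0))).1
  simp only [add_zero] at this
  exact this

lemma n1_add (z w : ℂ) : n1 (z + w) ≤ n1 z + n1 w := by
  have := abs_add_le z.re w.re
  have := abs_add_le z.im w.im
  simp only [n1, add_re, add_im]; linarith

lemma stage (m : ℕ) : ∃ F L, Good F L ∧ Supp F 0 1000 ∧ Sep F m 1 := by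
  induction m with
  | zero =>
    exact ⟨id, 2, good_id, fun _ _ => rfl, Unit, inferInstance, fun _ => 0, by simp,
      fun _ => by simp [V, n1], fun a b h => (h rfl).elim⟩
  | succ m ih =>
  obtain ⟨F, L, hF, hS, ι, _, p, hc, hp, hs⟩ := ih
  obtain ⟨G, hG, hGS, co, hGe⟩ := base R (fun z => T z.re) lip_R
    ((lip_T.comp lip_re).weaken (by norm_num))
  choose σ β hσ hpc using piece
  let J : Fin 1998 → ℤ := fun j => (j : ℕ) - 999
  let c : Fin 1998 → ℂ := fun j => J j + 1 / 2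
  obtain ⟨ρ, hρe⟩ : ∃ ρ : ℝ, ρ = 499 / 1000000 := ⟨_, rfl⟩
  have hρ : 0 < ρ := by norm_num [hρe]
  have hcn : ∀ j z, n1 (z - c j) ≤ ρ * 1000 → n1 z ≤ 999 := fun j z hz => by
    have h1 := n1_add (z - c j) (c j)
    have h2 : n1 (c j) ≤ 1997 / 2 := by
      have h3 : ((j : ℕ) : ℝ) ≤ 1997 := by exact_mod_cast Nat.le_of_lt_succ j.2
      have h4 : (0 : ℝ) ≤ (j : ℕ) := by positivity
      have : n1 (c j) = |((j : ℕ) : ℝ) - 999 + 1 / 2| := by simp [n1, c, J]
      rw [this]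
      exact abs_le.2 ⟨by linarith, by linarith⟩
    rw [sub_add_cancel] at h1
    linarith
  have hre : ∀ i j, i ≠ j → ∀ z ∈ V (c i) (ρ * 1000), ∀ w ∈ V (c j) (ρ * 1000),
      1 / 500 ≤ ‖z - w‖ := fun i j hij z hz w hw => by
    have h1 : (1 : ℝ) ≤ |(J i : ℝ) - J j| := by
      have : J i - J j ≠ 0 := fun h => hij (Fin.ext (by simp only [J] at h; omega))
      exact_mod_cast Int.one_le_abs this
    have h2 : |z.re - (J i + 1 / 2)| < ρ * 1000 := by
      refine lt_of_le_of_lt ?_ hz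
      simp [n1, c]
    have h3 : |w.re - (J j + 1 / 2)| < ρ * 1000 := by
      refine lt_of_le_of_lt ?_ hw
      simp [n1, c]
    have h4 := abs_re_le_norm (z - w)
    rw [sub_re] at h4
    rw [abs_lt] at h2 h3
    rw [abs_le] at h4
    rcases le_abs.1 h1 with h | h <;> linarith
  let a : Fin 1998 → ℂ := fun j => 1 + σ (J j) * I / 10
  have ha : ∀ j, ‖a j‖ ^ 2 = 101 / 100 := fun j => by
    have : σ (J j) ^ 2 = 1 := by rw [← sq_abs, hσ]; norm_num
    rw [Complex.sq_norm, normSq_apply]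
    simp [a]; nlinarith
  have hab : ∀ i z, n1 (z - c i) ≤ ρ * 1000 → G z = a i * z + β (J i) * I / 10 := fun i z hz => by
    obtain ⟨h1, h2, h3⟩ := hpc (J i) z (hz.trans (by norm_num [hρe]))
    have h4 := hcn i z hz
    rw [hGe z _ (by linarith), h1, h2]
    · apply Complex.ext <;> simp [a] <;> ring
    · rw [h2, abs_mul, abs_neg, hσ]
      have : |z.im| ≤ n1 (z - c i) := by simp [n1, c]
      linarith
  obtain ⟨H, hH, H1, H2⟩ := glue c (fun _ => ρ * 1000) a (fun i => β (J i) * I / 10)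
    (fun j => cj F (c j) ρ) (fun _ => L) G (max 2 (2 * L)) (hG.mono (le_max_left _ _))
    (fun j => hF.cj _ hρ) (fun j => hS.cj _ hρ)
    (fun i j hij => disjoint_left.2 fun z hz hw => by
      have := hre i j hij z hz z hw
      norm_num at this) (locallyFinite_of_finite _) hab (fun i => by
      have h1 : ‖a i‖ ≤ 2 := by nlinarith [ha i, norm_nonneg (a i)]
      push_cast
      exact le_max_of_le_right (by gcongr))
  have HS : Supp H 0 1000 := fun z hz => by
    rw [H2 z fun i hi => hz ?_, hGS z hz]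
    have := hcn i z hi.le
    simp only [V, mem_ofPred_eq, sub_zero]; linarith
  have hm : ∀ j x, ρ * F (p x) + c j ∈ V (c j) (ρ * 1000) := fun j x =>
    mem_V_cj _ hρ (hS.maps hF.bij.1 (hp x).2.1)
  have He : ∀ j x, H (ρ * p x + c j) = G (ρ * F (p x) + c j) := fun j x => by
    rw [H1 j _ (mem_V_cj _ hρ (hp x).2.1), cj_apply _ _ hρ]
  refine ⟨H, _, hH, HS, Fin 1998 × ι, inferInstance, fun x => ρ * p x.2 + c x.1,
    by simp [hc, pow_succ, mul_comm], fun x => ?_, fun x y hxy => ?_⟩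
  · have : ρ * p x.2 + c x.1 ∈ V 0 1000 := by
      have := hcn x.1 _ (mem_V_cj (c x.1) hρ (hp x.2).2.1).le
      simp only [V, mem_ofPred_eq, sub_zero]; linarith
    refine ⟨by simp [c, (hp x.2).1], this, ?_⟩
    have := HS.maps hH.bij.1 this
    simp only [V, mem_ofPred_eq, sub_zero] at this
    linarith [norm_le_n1 (H (ρ * p x.2 + c x.1))]
  · obtain ⟨i, x⟩ := x
    obtain ⟨j, y⟩ := y
    simp only [He]
    have hη : 0 < η ^ m := by unfold η; positivity
    by_cases hij : i = j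
    · subst hij
      have := hs x y fun h => hxy (by rw [h])
      rw [hab i _ (hm i x).le, hab i _ (hm i y).le, add_sub_add_right_eq_sub, ← mul_sub,
        add_sub_add_right_eq_sub, ← mul_sub, norm_mul, norm_mul, norm_real, Real.norm_eq_abs,
        abs_of_pos hρ]
      have h1 : 10049 / 10000 ≤ ‖a i‖ := by nlinarith [ha i, norm_nonneg (a i)]
      calc _ = 10049 / 10000 * (ρ * (1 * (η ^ m / 1000))) := by rw [pow_succ, η, hρe]; ring
        _ ≤ _ := by gcongr
    · have h1 := hre i j hij _ (hm i x) _ (hm j y)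
      have h2 := co (ρ * F (p x) + c i) (ρ * F (p y) + c j)
      have h3 : η ^ (m + 1) ≤ 1 := pow_le_one₀ (by unfold η; positivity) (by unfold η; norm_num)
      linarith

lemma shrink1 {F : ℂ → ℂ} {L L' : ℝ≥0} {m : ℕ} {τ : ℝ} (hF : Good F L) (hS : Supp F 0 1000)
    (h : Sep F m τ) (h1 : 2 ≤ L') (h2 : (9 / 10 : ℝ) * L ≤ L') :
    ∃ H, Good H L' ∧ Supp H 0 1000 ∧ Sep H m (9 / 20 * τ) := by
  obtain ⟨ι, _, p, hc, hp, hs⟩ := h
  obtain ⟨G, hG, hGS, -, hGe⟩ := base (fun z => -z.re) (fun z => -z.im)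
    (lip_re.neg.weaken (by norm_num)) (lip_im.neg.weaken (by norm_num))
  have hρ : (0 : ℝ) < 1 / 2 := by norm_num
  have hab : ∀ z, n1 (z - 0) ≤ 1 / 2 * 1000 → G z = 9 / 10 * z + 0 := fun z hz => by
    simp only [sub_zero, n1] at hz
    rw [hGe z (by simp only [n1, abs_neg]; linarith [abs_nonneg z.im])
      (by simp only [n1, abs_neg]; linarith [abs_nonneg z.re])]
    apply Complex.ext <;> simp <;> ring
  obtain ⟨H, hH, H1, H2⟩ := glue (ι := Unit) (fun _ => 0) (fun _ => 1 / 2 * 1000)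
    (fun _ => 9 / 10) (fun _ => 0) (fun _ => cj F 0 (1 / 2)) (fun _ => L) G L' (hG.mono h1)
    (fun _ => hF.cj _ hρ) (fun _ => hS.cj _ hρ) (fun i j hij => (hij rfl).elim)
    (locallyFinite_of_finite _) (fun _ => hab) (fun _ => by simpa using h2)
  have sub : ∀ z ∈ V 0 (1 / 2 * 1000), z ∈ V 0 1000 := fun z hz => by
    simp only [V, mem_ofPred_eq] at *; linarith
  have He : ∀ x, H ((1 / 2 : ℝ) * p x + 0) = 9 / 20 * F (p x) := fun x => by
    rw [H1 () _ (mem_V_cj _ hρ (hp x).2.1), cj_apply _ _ hρ,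
      hab _ (mem_V_cj _ hρ (hS.maps hF.bij.1 (hp x).2.1)).le]
    push_cast; ring
  refine ⟨H, hH, fun z hz => by rw [H2 z fun _ hi => hz (sub z hi), hGS z hz], ι, inferInstance,
    fun x => (1 / 2 : ℝ) * p x + 0, hc, fun x => ⟨by simp [(hp x).1],
      sub _ (mem_V_cj _ hρ (hp x).2.1), ?_⟩, fun x y hxy => ?_⟩
  · have := (hp x).2.2
    simp only [He, norm_mul, norm_div, norm_ofNat]; linarith
  · have := hs x y hxy
    simp only [He, ← mul_sub, norm_mul, norm_div, norm_ofNat]; linarith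

lemma shrink (m n : ℕ) : ∀ (F : ℂ → ℂ) (L : ℝ≥0) (τ : ℝ), 0 < τ → Good F L → Supp F 0 1000 →
    Sep F m τ → L ≤ 2 * (10 / 9) ^ n → ∃ H τ', 0 < τ' ∧ Good H 2 ∧ Supp H 0 1000 ∧ Sep H m τ' := by
  induction n with
  | zero => exact fun F L τ h0 h1 h2 h3 h4 => ⟨F, τ, h0, h1.mono (by simpa using h4), h2, h3⟩
  | succ n ih =>
    intro F L τ h0 h1 h2 h3 h4
    obtain ⟨H, a, b, c⟩ := shrink1 (L' := 2 * (10 / 9) ^ n) h1 h2 h3
      (le_mul_of_one_le_right (by positivity) (one_le_pow₀ (by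
        rw [← NNReal.coe_le_coe]; norm_num))) (by
        rw [← NNReal.coe_le_coe, pow_succ] at h4
        push_cast at *
        linarith)
    exact ih H _ _ (by positivity) a b c le_rfl

theorem main : ∃ H : ℂ → ℂ, IsHomeomorph H ∧ Good H 2 ∧ ∀ m, ∃ τ > 0,
    ∃ (ι : Type) (_ : Fintype ι) (p : ι → ℂ), Fintype.card ι = 1998 ^ m ∧ (∀ a, (p a).im = 0) ∧
    (∀ a b, ‖H (p a) - H (p b)‖ ≤ τ * 2000) ∧
    ∀ a b, a ≠ b → τ * (η ^ m / 1000) ≤ ‖H (p a) - H (p b)‖ := by
  have : ∀ m, ∃ H τ', 0 < τ' ∧ Good H 2 ∧ Supp H 0 1000 ∧ Sep H m τ' := fun m => by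
    obtain ⟨F, L, a, b, c⟩ := stage m
    obtain ⟨n, hn⟩ := pow_unbounded_of_one_lt (L : ℝ) (show (1 : ℝ) < 10 / 9 by norm_num)
    refine shrink m n F L 1 one_pos a b c ?_
    rw [← NNReal.coe_le_coe]
    push_cast
    linarith [L.2]
  choose F τ hτ hF hS hP using this
  let c : ℕ → ℂ := fun k => 3000 * k
  have hre : ∀ k, ∀ z ∈ V (c k) (1 * 1000), |z.re - 3000 * k| < 1000 := fun k z hz => by
    refine lt_of_le_of_lt ?_ (lt_of_lt_of_le hz (by norm_num))
    simp [n1, c]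
  obtain ⟨H, hH, H1, H2⟩ := glue c (fun _ => 1 * 1000) (fun _ => 1) (fun _ => 0)
    (fun k => cj (F k) (c k) 1) (fun _ => 2) id 2 good_id (fun k => (hF k).cj _ one_pos)
    (fun k => (hS k).cj _ one_pos) (fun i j hij => disjoint_left.2 fun z hz hw => by
      have h1 := abs_lt.1 (hre i z hz)
      have h2 := abs_lt.1 (hre j z hw)
      have h3 : (i : ℝ) < j + 1 := by linarith
      have h4 : (j : ℝ) < i + 1 := by linarith
      norm_cast at h3 h4
      exact hij (by omega))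
    (fun z => ⟨Metric.ball z 1, Metric.ball_mem_nhds z one_pos,
      (finite_le_nat ⌈|z.re| + 1⌉₊).subset fun k ⟨w, h1, h2⟩ => by
        have h3 := abs_lt.1 (hre k w h1)
        have h4 := abs_lt.1 ((abs_re_le_norm (w - z)).trans_lt (mem_ball_iff_norm.1 h2))
        rw [sub_re] at h4
        have h5 : (k : ℝ) ≤ ⌈|z.re| + 1⌉₊ := by
          have := Nat.le_ceil (|z.re| + 1)
          have := le_abs_self z.re
          have := abs_nonneg z.re
          linarith
        exact_mod_cast h5⟩) (fun _ _ _ => by simp) (fun _ => by simp)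
  have near : ∀ z, ‖H z - z‖ ≤ 2000 := fun z => by
    by_cases h : ∃ k, z ∈ V (c k) (1 * 1000)
    · obtain ⟨k, hk⟩ := h
      have h1 := ((hS k).cj (c k) one_pos).maps ((hF k).cj (c k) one_pos).bij.1 hk
      rw [H1 k z hk]
      have h2 := norm_sub_le_norm_sub_add_norm_sub (cj (F k) (c k) 1 z) (c k) z
      rw [norm_sub_rev (c k)] at h2
      simp only [V, mem_ofPred_eq, id] at *
      linarith [norm_le_n1 (z - c k), norm_le_n1 (cj (F k) (c k) 1 z - c k)]
    · rw [H2 z (by simpa using h)]; simp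
  refine ⟨H, isHomeomorph_iff_continuous_isClosedMap_bijective.2 ⟨hH.lip.continuous,
    (isProperMap_iff_tendsto_cocompact.2 ⟨hH.lip.continuous, ?_⟩).isClosedMap, hH.bij⟩, hH,
    fun m => ?_⟩
  · rw [← Metric.cobounded_eq_cocompact, ← tendsto_norm_atTop_iff_cobounded]
    refine tendsto_atTop_mono (fun z => ?_)
      (tendsto_atTop_add_const_right _ (-2000) (tendsto_norm_cobounded_atTop (E := ℂ)))
    have := norm_sub_norm_le z (H z)
    rw [norm_sub_rev] at this
    linarith [near z]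
  obtain ⟨ι, _, p, hc, hp, hs⟩ := hP m
  have He : ∀ x y, H ((1 : ℝ) * p x + c m) - H ((1 : ℝ) * p y + c m) = F m (p x) - F m (p y) :=
    fun x y => by
    rw [H1 m _ (mem_V_cj _ one_pos (hp x).2.1), cj_apply _ _ one_pos,
      H1 m _ (mem_V_cj _ one_pos (hp y).2.1), cj_apply _ _ one_pos]
    simp
  refine ⟨τ m, hτ m, ι, inferInstance, fun x => (1 : ℝ) * p x + c m, hc,
    fun x => by simp [c, (hp x).1], fun x y => ?_, fun x y hxy => by rw [He]; exact hs x y hxy⟩
  rw [He]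
  linarith [norm_sub_le (F m (p x)) (F m (p y)), (hp x).2.2, (hp y).2.2]

end Pool.Agent.H.MP_c78a2a_an
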